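import Mathlib
import Pool.Agent.H447R2.ML.Spec
import Pool.Agent.U776.PS.Win

set_option autoImplicit false

/-!
# The Pell recursion: windows of any length and the law of the iterated logarithm

The real solutions of `T (n + 2) = 2 T (n + 1) + T n` are the sequences `T β B n = β α ^ n + B α' ^ n`
with `α = 1 + √2`, `α' = 1 - √2`; the Pell numbers are the solution with `β = 1 / (2 √2)`, `B = -1 / (2 √2)`.  For a prime `p` let `W β B p` be the
`p`-rough part (the product, with multiplicity, of the prime factors larger than `p`) of `⌊T β B p⌋`; for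
the integer sequence of the question this is the number with the index `p` itself, for all primes
`p > 3`.

According to the Poisson model the exponents `p` with `W β B p` prime form, on the scale `log p`, a
Poisson process of intensity `κ = e ^ γ / log (1 + √2)`, for a general `β`.  For such a process the
number of points in `(log n, log n']` differs from its mean by
`O (sqrt (log (n' / n) log log n') + log log n')`, for all windows at once, and for the windows
starting at the origin by `O (sqrt (log n log log log n))` (law of the iterated logarithm).  We prove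
these bounds for almost every `β > 0` and all real `B` at once, for all windows `(n, n']` at once, of
whatever length, and for the whole counting function; and the same for the exponents in an arbitrary
set `S` of primes of infinite weight `∑ log p / p`.

The general machine for real bases is that of `MP_5893d7_nt/GoldenWindows.lean` (helper176 and others);
new is the bound for several exponents in the base `1 + √2` (`Pool.Agent.U776.PS`): Pell numbers take
the place of Fibonacci numbers.
-/

namespace Pool.Agent.Results.MP_c66c79_nt.AllWindows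

open Filter Topology MeasureTheory

/-- The Pell numbers. -/
def pell : ℕ → ℕ
  | 0 => 0
  | 1 => 1
  | (n + 2) => 2 * pell (n + 1) + pell n

/-- The fundamental unit. -/
noncomputable def α : ℝ := 1 + Real.sqrt 2

/-- The conjugate of the fundamental unit. -/
noncomputable def α' : ℝ := 1 - Real.sqrt 2

/-- The real solutions of `T (n + 2) = 2 T (n + 1) + T n`. -/
noncomputable def T (β B : ℝ) (n : ℕ) : ℝ := β * α ^ n + B * α' ^ n

/-- The product, with multiplicity, of the prime factors of `m` that are larger than `p`. -/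
def roughPart (p m : ℕ) : ℕ := (m.primeFactorsList.filter (fun r => p < r)).prod

/-- The `p`-rough part of `⌊T β B p⌋`. -/
noncomputable def W (β B : ℝ) (p : ℕ) : ℕ := roughPart p ⌊T β B p⌋₊

open Classical in
/-- The number of primes `p ≤ n` in the set `S` for which `W β B p` is prime. -/
noncomputable def M (S : Set ℕ) (β B : ℝ) (n : ℕ) : ℕ :=
  ((Finset.range (n + 1)).filter (fun p => p.Prime ∧ p ∈ S ∧ (W β B p).Prime)).card

open Classical in
/-- The sum of `log p / p` over the primes `p ≤ n` in the set `S`. -/
noncomputable def V (S : Set ℕ) (n : ℕ) : ℝ :=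
  ∑ p ∈ (Finset.range (n + 1)).filter (fun p => p.Prime ∧ p ∈ S), Real.log p / p

/-- The constant of the law, `e ^ γ / log (1 + √2)`. -/
noncomputable def κ : ℝ := Real.exp Real.eulerMascheroniConstant / Real.log α

lemma sq2 : Real.sqrt 2 ^ 2 = 2 := Real.sq_sqrt (by norm_num)

lemma sqrt2_pos : 0 < Real.sqrt 2 := Real.sqrt_pos.2 (by norm_num)

lemma one_lt_sqrt2 : 1 < Real.sqrt 2 := by
  rw [Real.lt_sqrt (by norm_num)]
  norm_num

lemma sqrt2_lt : Real.sqrt 2 < 2 := by
  rw [Real.sqrt_lt' (by norm_num)]
  norm_num

lemma one_lt_alpha : 1 < α := by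
  unfold α
  linarith [sqrt2_pos]

lemma conj_lt : |α'| < 1 := by
  unfold α'
  rw [abs_lt]
  constructor <;> linarith [one_lt_sqrt2, sqrt2_lt]

lemma alpha_sq : α ^ 2 = 2 * α + 1 := by unfold α; nlinarith [sq2]

lemma conj_sq : α' ^ 2 = 2 * α' + 1 := by unfold α'; nlinarith [sq2]

lemma T_rec (β B : ℝ) (n : ℕ) : T β B (n + 2) = 2 * T β B (n + 1) + T β B n := by
  unfold T
  rw [pow_add α n 2, pow_add α' n 2, alpha_sq, conj_sq]
  ring

/-- the Pell numbers -/
lemma T_pell (n : ℕ) : T (1 / (2 * Real.sqrt 2)) (-(1 / (2 * Real.sqrt 2))) n = (pell n : ℝ) := by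
  induction n using Nat.twoStepInduction with
  | zero => unfold T; norm_num [pell]
  | one =>
    have := sqrt2_pos.ne'
    unfold T α α'
    simp only [pow_one, pell, Nat.cast_one]
    field_simp
    ring
  | more n h1 h2 =>
    rw [T_rec, h1, h2]
    show _ = ((2 * pell (n + 1) + pell n : ℕ) : ℝ)
    push_cast
    ring

lemma pell_eq (n : ℕ) : Pool.Agent.H447R2.ML.U 2 n = pell n := by
  induction n using Nat.twoStepInduction with
  | zero => rfl
  | one => rfl
  | more n h1 h2 =>
    rw [Pool.Agent.H447R2.ML.U_add_two, h1, h2]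
    rfl

/-- The Pell numbers. -/
lemma W_pell {p : ℕ} (hp : p.Prime) (h3 : 3 < p) :
    W (1 / (2 * Real.sqrt 2)) (-(1 / (2 * Real.sqrt 2))) p = pell p := by
  have h5 : 5 ≤ p := by
    by_contra h
    have : p = 4 := by omega
    subst this
    exact absurd hp (by norm_num)
  have hd : ¬ p ∣ 2 ^ 2 + 4 := by
    intro h
    have h8 : p ∣ 2 ^ 3 := h
    have := Nat.le_of_dvd two_pos (hp.dvd_of_dvd_pow h8)
    omega
  have h := Pool.Agent.H447R2.ML.rough_U 2 two_pos hp h5 hd
    (x := T (1 / (2 * Real.sqrt 2)) (-(1 / (2 * Real.sqrt 2))) p) (by rw [T_pell, pell_eq])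
  rw [pell_eq] at h
  exact h

/-- The special values; the window law and the law of the iterated logarithm for all solutions of the
recursion with the leading coefficient `β` at once; the same for the indices in an arbitrary set of
primes of infinite weight. -/
theorem result :
    (∀ (β B : ℝ) (n : ℕ), T β B (n + 2) = 2 * T β B (n + 1) + T β B n) ∧
    (∀ n : ℕ, T (1 / (2 * Real.sqrt 2)) (-(1 / (2 * Real.sqrt 2))) n = pell n) ∧
    (∀ p : ℕ, p.Prime → 3 < p →
      W (1 / (2 * Real.sqrt 2)) (-(1 / (2 * Real.sqrt 2))) p = pell p) ∧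
    (∃ C : ℝ, ∀ᵐ β : ℝ, 0 < β → ∀ B : ℝ,
      (∀ᶠ n : ℕ in atTop, ∀ n' ≥ n,
        |((M Set.univ β B n' : ℝ) - M Set.univ β B n) - κ * Real.log ((n' : ℝ) / n)| ≤
          C * (√(Real.log ((n' : ℝ) / n) * Real.log (Real.log n')) + Real.log (Real.log n'))) ∧
      (∀ᶠ n : ℕ in atTop, |(M Set.univ β B n : ℝ) - κ * Real.log n| ≤
        C * √(Real.log n * Real.log (Real.log (Real.log n))))) ∧
    (∃ C : ℝ, ∀ S : Set ℕ, Tendsto (fun n => V S n) atTop atTop → ∀ᵐ β : ℝ, 0 < β → ∀ B : ℝ,
      (∀ᶠ n : ℕ in atTop, ∀ n' ≥ n,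
        |((M S β B n' : ℝ) - M S β B n) - κ * (V S n' - V S n)| ≤
          C * (√((V S n' - V S n) * Real.log (V S n')) + Real.log (V S n'))) ∧
      (∀ᶠ n : ℕ in atTop, |(M S β B n : ℝ) - κ * V S n| ≤
        C * √(V S n * Real.log (Real.log (V S n))))) := by
  have eM : ∀ S β B n, Pool.Agent.N176.GW.MB Pool.Agent.U776.PS.sr (fun p => B * α' ^ p) S β n =
      M S β B n := by
    intro S β B n
    unfold Pool.Agent.N176.GW.MB M W T α
    rfl
  have eV : ∀ S n, Pool.Agent.N176.OW.VS S n = V S n := fun S n => rfl
  have ek : Pool.Agent.N176.GW.kr Pool.Agent.U776.PS.sr = κ := rfl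
  refine ⟨T_rec, T_pell, fun p hp h3 => W_pell hp h3, ?_, ?_⟩
  · have h := Pool.Agent.N176.GW.fin_univ Pool.Agent.U776.PS.one_lt_sr Pool.Agent.U776.PS.s_win
      Pool.Agent.U776.PS.s_lil conj_lt
    simp only [eM, ek] at h
    exact h
  · have h := Pool.Agent.N176.GW.fin_set Pool.Agent.U776.PS.one_lt_sr Pool.Agent.U776.PS.s_win
      Pool.Agent.U776.PS.s_lil conj_lt
    simp only [eM, ek, eV] at h
    exact h

end Pool.Agent.Results.MP_c66c79_nt.AllWindows
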